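import Pool.Agent.Lib.MP_1bd42a_an.Op

/-! A weakly numerically hypercyclic operator on a separable Hilbert space whose square is not
weakly numerically hypercyclic. -/

namespace Pool.Agent.Results.MP_1bd42a_an.SquareNotWNH

universe u

/-- `S` is numerically hypercyclic: some numerical orbit `{g (S ^ n y)}` with
`‖y‖ = ‖g‖ = g y = 1` is dense in `ℂ`. -/
def NumHypercyclic {Y : Type u} [NormedAddCommGroup Y] [NormedSpace ℂ Y] (S : Y →L[ℂ] Y) : Prop :=
  ∃ (y : Y) (g : Y →L[ℂ] ℂ), ‖y‖ = 1 ∧ ‖g‖ = 1 ∧ g y = 1 ∧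
    Dense (Set.range fun n : ℕ => g ((S ^ n) y))

/-- `T` is weakly numerically hypercyclic: it is similar to a numerically hypercyclic operator
on some complex Banach space. -/
def WeaklyNumHypercyclic {X : Type u} [NormedAddCommGroup X] [NormedSpace ℂ X]
    (T : X →L[ℂ] X) : Prop :=
  ∃ (Y : Type u) (_ : NormedAddCommGroup Y) (_ : NormedSpace ℂ Y) (_ : CompleteSpace Y)
    (S : Y →L[ℂ] Y) (J : X ≃L[ℂ] Y), (∀ x, J.symm (S (J x)) = T x) ∧ NumHypercyclic S

lemma dense_of_weakly {X : Type u} [NormedAddCommGroup X] [NormedSpace ℂ X] {T : X →L[ℂ] X}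
    (h : WeaklyNumHypercyclic T) :
    ∃ (x : X) (f : X →L[ℂ] ℂ), DenseRange fun n : ℕ => f ((T ^ n) x) := by
  obtain ⟨Y, _, _, _, S, J, hJ, y, g, -, -, -, hd⟩ := h
  have h1 : ∀ (n : ℕ) x, J ((T ^ n) x) = (S ^ n) (J x) := by
    intro n x
    induction n with
    | zero => simp
    | succ n ih => rw [pow_succ', pow_succ', mul_apply_eq_comp, mul_apply_eq_comp, ← hJ, ih]; simp
  refine ⟨J.symm y, g.comp (J : X →L[ℂ] Y), ?_⟩
  simp only [ContinuousLinearMap.comp_apply, ContinuousLinearEquiv.coe_coe, h1,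
    ContinuousLinearEquiv.apply_symm_apply]
  exact hd

lemma weakly_of_dense {X : Type} [NormedAddCommGroup X] [NormedSpace ℂ X] [CompleteSpace X]
    {T : X →L[ℂ] X} {x : X} {f : X →L[ℂ] ℂ} (h : DenseRange fun n : ℕ => f ((T ^ n) x)) :
    WeaklyNumHypercyclic T := by
  classical
  obtain ⟨m, hm⟩ := h.exists_mem_open (isOpen_compl_singleton (x := (0 : ℂ))) ⟨1, one_ne_zero⟩
  set x' := (T ^ m) x with hx'
  have hm' : f x' ≠ 0 := hm
  let g : X →L[ℂ] ℂ := (f x')⁻¹ • f
  have hg : g x' = 1 := by simp [g, hm']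
  have hd : DenseRange fun n : ℕ => g ((T ^ n) x') := by
    have h1 : Dense (Set.range fun n : ℕ => f ((T ^ n) x')) := by
      refine (Dense.sdiff_finset h ((Finset.range m).image fun n : ℕ => f ((T ^ n) x))).mono ?_
      rintro _ ⟨⟨n, rfl⟩, hn⟩
      rcases lt_or_ge n m with h2 | h2
      · exact absurd (Finset.mem_coe.2 (Finset.mem_image_of_mem _ (Finset.mem_range.2 h2))) hn
      · obtain ⟨i, rfl⟩ := Nat.exists_eq_add_of_le' h2
        exact ⟨i, by simp only [hx', pow_add, mul_apply_eq_comp]⟩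
    exact (mul_left_surjective₀ (inv_ne_zero hm')).denseRange.comp h1 (continuous_const_mul _)
  have hr : Function.RightInverse (ContinuousLinearMap.toSpanSingleton ℂ x') g := by
    intro c; simp [hg]
  let J := ContinuousLinearEquiv.equivOfRightInverse g _ hr
  have : CompleteSpace g.ker := g.isClosed_ker.completeSpace_coe
  let S : (ℂ × g.ker) →L[ℂ] (ℂ × g.ker) :=
    (J : X →L[ℂ] ℂ × g.ker).comp (T.comp (J.symm : ℂ × g.ker →L[ℂ] X))
  have h1 : ∀ (n : ℕ) z, (S ^ n) (J z) = J ((T ^ n) z) := by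
    intro n z
    induction n with
    | zero => simp
    | succ n ih => rw [pow_succ', pow_succ', mul_apply_eq_comp, mul_apply_eq_comp, ih]; simp [S]
  have h2 : J x' = (1, 0) := by
    refine Prod.ext hg (Subtype.ext ?_)
    simp [J, hg]
  refine ⟨ℂ × g.ker, inferInstance, inferInstance, inferInstance, S, J, fun z => by simp [S],
    J x', ContinuousLinearMap.fst ℂ ℂ g.ker, by simp [h2], ContinuousLinearMap.norm_fst _ _ _,
    by simp [h2], ?_⟩
  simp only [h1]
  exact hd

lemma separable_H2 : TopologicalSpace.SeparableSpace Pool.Agent.Lib.MP_1bd42a_an.H2 := by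
  classical
  let s : Set Pool.Agent.Lib.MP_1bd42a_an.H2 := ⋃ j : ℕ, Set.range
    (lp.singleContinuousLinearMap ℂ (fun _ : ℕ => EuclideanSpace ℂ (Fin 2)) 2 j)
  have h1 : TopologicalSpace.IsSeparable s := TopologicalSpace.isSeparable_iUnion.2 fun j =>
    TopologicalSpace.isSeparable_range (map_continuous _)
  rw [← TopologicalSpace.isSeparable_univ_iff]
  refine (h1.span (R := ℂ)).closure.mono fun x _ => ?_
  refine mem_closure_of_tendsto (lp.hasSum_single (by norm_num) x) (Filter.Eventually.of_forall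
    fun t => Submodule.sum_mem _ fun j _ => Submodule.subset_span ?_)
  exact Set.mem_iUnion.2 ⟨j, x j, rfl⟩

theorem result :
    ∃ (X : Type) (_ : NormedAddCommGroup X) (_ : InnerProductSpace ℂ X) (_ : CompleteSpace X)
      (_ : TopologicalSpace.SeparableSpace X) (T : X →L[ℂ] X),
      WeaklyNumHypercyclic T ∧ ¬ WeaklyNumHypercyclic (T ^ 2) := by
  obtain ⟨S, h1, x, f, h2⟩ := Pool.Agent.Lib.MP_1bd42a_an.exists_op
  refine ⟨Pool.Agent.Lib.MP_1bd42a_an.H2, inferInstance, inferInstance, inferInstance,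
    separable_H2, -S, weakly_of_dense h2, fun h => ?_⟩
  obtain ⟨y, g, h3⟩ := dense_of_weakly h
  refine h1 y g (Dense.mono ?_ h3)
  rintro _ ⟨n, rfl⟩
  exact ⟨2 * n, by simp only [neg_sq, pow_mul]⟩

end Pool.Agent.Results.MP_1bd42a_an.SquareNotWNH
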